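import Pool.Agent.Q35.PX.Stm

/-!
# Project PX (helper35), job PX-MAT: edges which avoid matchings
-/

set_option autoImplicit false

namespace Pool.Agent.Q177.PX

open Finset Pool.Agent.Q35.PX

/-- there is a matching with `p` edges -/
def Mt {n : ℕ} (E : Finset (Fin n × Fin n)) (p : ℕ) : Prop :=
  ∃ u v : Fin p → Fin n, Function.Injective (Sum.elim u v) ∧ ∀ i, (u i, v i) ∈ E

lemma mt_zero {n : ℕ} (E : Finset (Fin n × Fin n)) : Mt E 0 :=
  ⟨Fin.elim0, Fin.elim0, fun a => by rcases a with a | a <;> exact a.elim0, fun i => i.elim0⟩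

lemma mt_le {n p : ℕ} {u v : Fin p → Fin n} (h : Function.Injective (Sum.elim u v)) :
    2 * p ≤ n := by
  have h1 := Fintype.card_le_of_injective _ h
  simp only [Fintype.card_sum, Fintype.card_fin] at h1
  omega

lemma mem_cover {n p : ℕ} {u v : Fin p → Fin n} {a : Fin n} :
    a ∈ cover u v ↔ ∃ i, a = u i ∨ a = v i := by
  unfold cover
  rw [mem_union, mem_image, mem_image]
  constructor
  · rintro (⟨i, -, h⟩ | ⟨i, -, h⟩)
    · exact ⟨i, Or.inl h.symm⟩
    · exact ⟨i, Or.inr h.symm⟩
  · rintro ⟨i, h | h⟩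
    · exact Or.inl ⟨i, mem_univ _, h.symm⟩
    · exact Or.inr ⟨i, mem_univ _, h.symm⟩

lemma ext_match {n p : ℕ} {E : Finset (Fin n × Fin n)} {u v : Fin p → Fin n}
    (hi : Function.Injective (Sum.elim u v)) (he : ∀ i, (u i, v i) ∈ E) {x : Fin n × Fin n}
    (hx : x ∈ E) (hlt : x.1 < x.2) (h1 : x.1 ∉ cover u v) (h2 : x.2 ∉ cover u v) :
    Mt E (p + 1) := by
  rw [mem_cover] at h1 h2
  push Not at h1 h2
  have hu : Function.Injective u := hi.comp Sum.inl_injective
  have hv : Function.Injective v := hi.comp Sum.inr_injective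
  have huv : ∀ i j, u i ≠ v j := by
    intro i j h
    have := @hi (Sum.inl i) (Sum.inr j) h
    simp at this
  refine ⟨Fin.cons x.1 u, Fin.cons x.2 v, ?_, ?_⟩
  · apply Function.Injective.sumElim
    · rw [Fin.cons_injective_iff]
      refine ⟨?_, hu⟩
      rintro ⟨i, hi'⟩
      exact (h1 i).1 hi'.symm
    · rw [Fin.cons_injective_iff]
      refine ⟨?_, hv⟩
      rintro ⟨i, hi'⟩
      exact (h2 i).2 hi'.symm
    · intro a b
      refine Fin.cases ?_ (fun a => ?_) a
      · refine Fin.cases ?_ (fun b => ?_) b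
        · rw [Fin.cons_zero, Fin.cons_zero]
          exact hlt.ne
        · rw [Fin.cons_zero, Fin.cons_succ]
          exact (h1 b).2
      · refine Fin.cases ?_ (fun b => ?_) b
        · rw [Fin.cons_zero, Fin.cons_succ]
          exact fun h => (h2 a).1 h.symm
        · rw [Fin.cons_succ, Fin.cons_succ]
          exact huv a b
  · intro i
    refine Fin.cases ?_ (fun i => ?_) i
    · rw [Fin.cons_zero, Fin.cons_zero]
      exact hx
    · rw [Fin.cons_succ, Fin.cons_succ]
      exact he i

/-- the vertices of the pairs with index in `S` -/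
def cv {n ν : ℕ} (u v : Fin ν → Fin n) (S : Finset (Fin ν)) : Finset (Fin n) :=
  S.image u ∪ S.image v

lemma cover_sub {n ν q : ℕ} (u v : Fin ν → Fin n) (S : Finset (Fin ν)) (hS : S.card = q) :
    cover (fun i => u (S.orderEmbOfFin hS i)) (fun i => v (S.orderEmbOfFin hS i)) = cv u v S := by
  have h : univ.image (S.orderEmbOfFin hS) = S := by
    ext a
    rw [mem_image]
    constructor
    · rintro ⟨i, -, rfl⟩
      exact S.orderEmbOfFin_mem hS i
    · intro ha
      have : a ∈ Set.range (S.orderEmbOfFin hS) := by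
        rw [range_orderEmbOfFin]
        exact ha
      obtain ⟨i, hi⟩ := this
      exact ⟨i, mem_univ _, hi⟩
  unfold cover cv
  conv_rhs => rw [← h]
  rw [image_image, image_image]
  rfl

/-- the sum over the subsets -/
lemma sum_sub {n ν q t : ℕ} {E : Finset (Fin n × Fin n)} {u v : Fin ν → Fin n}
    (hi : Function.Injective (Sum.elim u v)) (he : ∀ i, (u i, v i) ∈ E)
    (ht : ∀ u v : Fin q → Fin n, Function.Injective (Sum.elim u v) → (∀ i, (u i, v i) ∈ E) →
      t ≤ (avoid E (cover u v)).card) :
    ν.choose q * t ≤ ∑ x ∈ E, ((powersetCard q (univ : Finset (Fin ν))).filter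
      (fun S => x.1 ∉ cv u v S ∧ x.2 ∉ cv u v S)).card := by
  classical
  have h1 : ∀ S ∈ powersetCard q (univ : Finset (Fin ν)), t ≤ (avoid E (cv u v S)).card := by
    intro S hS
    rw [mem_powersetCard] at hS
    rw [← cover_sub u v S hS.2]
    refine ht _ _ ?_ (fun i => he _)
    have h2 : Sum.elim (fun i => u (S.orderEmbOfFin hS.2 i)) (fun i => v (S.orderEmbOfFin hS.2 i))
        = Sum.elim u v ∘ Sum.map (S.orderEmbOfFin hS.2) (S.orderEmbOfFin hS.2) := by
      funext a
      rcases a with a | a <;> rfl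
    rw [h2]
    exact hi.comp (Sum.map_injective.2 ⟨(S.orderEmbOfFin hS.2).injective,
      (S.orderEmbOfFin hS.2).injective⟩)
  have h3 := card_nsmul_le_sum _ _ _ h1
  rw [card_powersetCard, card_univ, Fintype.card_fin, smul_eq_mul] at h3
  refine h3.trans (le_of_eq ?_)
  have h4 : ∀ S : Finset (Fin ν), (avoid E (cv u v S)).card =
      ∑ x ∈ E, if (x.1 ∉ cv u v S ∧ x.2 ∉ cv u v S) then 1 else 0 := by
    intro S
    unfold avoid
    rw [card_filter]
  rw [sum_congr rfl (fun S _ => h4 S), sum_comm]
  refine sum_congr rfl (fun x _ => ?_)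
  rw [card_filter]

lemma cnt_one {n ν q : ℕ} {u v : Fin ν → Fin n} {x : Fin n × Fin n} {i : Fin ν}
    (h : (x.1 = u i ∨ x.1 = v i) ∨ (x.2 = u i ∨ x.2 = v i)) :
    ((powersetCard q (univ : Finset (Fin ν))).filter
      (fun S => x.1 ∉ cv u v S ∧ x.2 ∉ cv u v S)).card ≤ (ν - 1).choose q := by
  classical
  have h1 : (powersetCard q (univ : Finset (Fin ν))).filter
      (fun S => x.1 ∉ cv u v S ∧ x.2 ∉ cv u v S) ⊆ powersetCard q (univ.erase i) := by
    intro S hS
    rw [mem_filter, mem_powersetCard] at hS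
    obtain ⟨⟨-, hc⟩, h2, h3⟩ := hS
    rw [mem_powersetCard]
    refine ⟨fun j hj => ?_, hc⟩
    rw [mem_erase]
    refine ⟨?_, mem_univ _⟩
    rintro rfl
    unfold cv at h2 h3
    rw [mem_union, mem_image, mem_image] at h2 h3
    rcases h with (h | h) | (h | h)
    · exact h2 (Or.inl ⟨j, hj, h.symm⟩)
    · exact h2 (Or.inr ⟨j, hj, h.symm⟩)
    · exact h3 (Or.inl ⟨j, hj, h.symm⟩)
    · exact h3 (Or.inr ⟨j, hj, h.symm⟩)
  refine (card_le_card h1).trans ?_
  rw [card_powersetCard, card_erase_of_mem (mem_univ _), card_univ, Fintype.card_fin]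

lemma cnt_two {n ν q : ℕ} {u v : Fin ν → Fin n} {x : Fin n × Fin n} {i j : Fin ν} (hij : i ≠ j)
    (h : x.1 = u i ∨ x.1 = v i) (h' : x.2 = u j ∨ x.2 = v j) :
    ((powersetCard q (univ : Finset (Fin ν))).filter
      (fun S => x.1 ∉ cv u v S ∧ x.2 ∉ cv u v S)).card ≤ (ν - 2).choose q := by
  classical
  have h1 : (powersetCard q (univ : Finset (Fin ν))).filter
      (fun S => x.1 ∉ cv u v S ∧ x.2 ∉ cv u v S) ⊆
        powersetCard q ((univ.erase i).erase j) := by
    intro S hS
    rw [mem_filter, mem_powersetCard] at hS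
    obtain ⟨⟨-, hc⟩, h2, h3⟩ := hS
    rw [mem_powersetCard]
    refine ⟨fun l hl => ?_, hc⟩
    unfold cv at h2 h3
    rw [mem_union, mem_image, mem_image] at h2 h3
    rw [mem_erase, mem_erase]
    refine ⟨?_, ?_, mem_univ _⟩
    · rintro rfl
      rcases h' with h' | h'
      · exact h3 (Or.inl ⟨l, hl, h'.symm⟩)
      · exact h3 (Or.inr ⟨l, hl, h'.symm⟩)
    · rintro rfl
      rcases h with h | h
      · exact h2 (Or.inl ⟨l, hl, h.symm⟩)
      · exact h2 (Or.inr ⟨l, hl, h.symm⟩)
  refine (card_le_card h1).trans ?_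
  have hj : j ∈ univ.erase i := mem_erase.2 ⟨hij.symm, mem_univ _⟩
  rw [card_powersetCard, card_erase_of_mem hj, card_erase_of_mem (mem_univ _), card_univ,
    Fintype.card_fin, Nat.sub_sub]

/-- the arithmetic of the first case -/
lemma arith_a {ν q t e m : ℕ} (hq : q < ν) (hm : ν ≤ m)
    (h : ν.choose q * t ≤ e * (ν - 1).choose q) : m * t ≤ (m - q) * e := by
  obtain ⟨a, rfl⟩ : ∃ a, ν = a + 1 := ⟨ν - 1, by omega⟩
  rw [Nat.add_sub_cancel] at h
  have h1 := Nat.choose_mul_succ_eq a q
  have hc : 0 < (a + 1).choose q := Nat.choose_pos hq.le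
  -- `(a + 1) t ≤ (a + 1 - q) e`
  have h2 : (a + 1) * t ≤ (a + 1 - q) * e := by
    apply Nat.le_of_mul_le_mul_left _ hc
    calc (a + 1).choose q * ((a + 1) * t) = (a + 1) * ((a + 1).choose q * t) := by ring
      _ ≤ (a + 1) * (e * a.choose q) := Nat.mul_le_mul_left _ h
      _ = (a.choose q * (a + 1)) * e := by ring
      _ = ((a + 1).choose q * (a + 1 - q)) * e := by rw [h1]
      _ = _ := by ring
  obtain ⟨b, rfl⟩ : ∃ b, m = a + 1 + b := ⟨m - (a + 1), by omega⟩
  obtain ⟨c, rfl⟩ : ∃ c, a = q + c := ⟨a - q, by omega⟩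
  have e1 : q + c + 1 - q = c + 1 := by omega
  have e2 : q + c + 1 + b - q = c + 1 + b := by omega
  rw [e1] at h2
  rw [e2]
  apply Nat.le_of_mul_le_mul_left _ (show 0 < q + c + 1 by omega)
  calc (q + c + 1) * ((q + c + 1 + b) * t) = (q + c + 1 + b) * ((q + c + 1) * t) := by ring
    _ ≤ (q + c + 1 + b) * ((c + 1) * e) := Nat.mul_le_mul_left _ h2
    _ ≤ (q + c + 1) * ((c + 1 + b) * e) := by nlinarith [Nat.zero_le (q * b * e)]

/-- the arithmetic of the second case -/
lemma arith_b {m q t e : ℕ} (hq : q < m + 2) (he : m + 2 ≤ e)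
    (h : (m + 2).choose q * t ≤ (m + 2) * (m + 1).choose q + (e - (m + 2)) * m.choose q) :
    (m + 1) * t ≤ (m + 1 - q) * e + q := by
  have h1 := Nat.choose_mul_succ_eq (m + 1) q
  have h2 := Nat.choose_mul_succ_eq m q
  have hc : 0 < (m + 2).choose q := Nat.choose_pos hq.le
  obtain ⟨a, ha⟩ : ∃ a : ℤ, a = ((m + 2).choose q : ℕ) := ⟨_, rfl⟩
  obtain ⟨b, hb⟩ : ∃ b : ℤ, b = ((m + 1).choose q : ℕ) := ⟨_, rfl⟩
  obtain ⟨c, hcc⟩ : ∃ c : ℤ, c = (m.choose q : ℕ) := ⟨_, rfl⟩
  obtain ⟨d, rfl⟩ : ∃ d, e = m + 2 + d := ⟨e - (m + 2), by omega⟩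
  obtain ⟨l, hl⟩ : ∃ l, m + 1 = q + l := ⟨m + 1 - q, by omega⟩
  have e1 : m + 1 + 1 - q = l + 1 := by omega
  have e2 : m + 1 - q = l := by omega
  rw [e1] at h1
  rw [e2] at h2
  rw [Nat.add_sub_cancel_left] at h
  rw [e2]
  have k1 : b * (m + 2) = a * (l + 1) := by
    rw [ha, hb]
    exact_mod_cast h1
  have k2 : c * (m + 1) = b * l := by
    rw [hb, hcc]
    exact_mod_cast h2
  have k3 : a * t ≤ (m + 2) * b + d * c := by
    rw [ha, hb, hcc]
    exact_mod_cast h
  have ha0 : 0 < a := by rw [ha]; exact_mod_cast hc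
  have hlz : (m : ℤ) + 1 = q + l := by exact_mod_cast hl
  have k4 : a * (((m : ℤ) + 2) * ((m + 1) * t)) ≤ a * ((m + 2) * (l * (m + 2 + d) + q)) := by
    have k5 : a * (((m : ℤ) + 2) * ((m + 1) * t)) ≤
        ((m : ℤ) + 2) * (m + 1) * ((m + 2) * b + d * c) := by
      have : a * (((m : ℤ) + 2) * ((m + 1) * t)) = ((m : ℤ) + 2) * (m + 1) * (a * t) := by ring
      rw [this]
      exact mul_le_mul_of_nonneg_left k3 (by positivity)
    have k6 : ((m : ℤ) + 2) * (m + 1) * ((m + 2) * b + d * c) =
        a * ((l + 1) * (m + 1) * (m + 2) + d * ((l + 1) * l)) := by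
      have s1 : ((m : ℤ) + 2) * (m + 1) * ((m + 2) * b) = a * ((l + 1) * (m + 1) * (m + 2)) := by
        calc ((m : ℤ) + 2) * (m + 1) * ((m + 2) * b) = (m + 1) * (m + 2) * (b * (m + 2)) := by ring
          _ = _ := by rw [k1]; ring
      have s2 : ((m : ℤ) + 2) * (m + 1) * (d * c) = a * (d * ((l + 1) * l)) := by
        calc ((m : ℤ) + 2) * (m + 1) * (d * c) = (m + 2) * d * (c * (m + 1)) := by ring
          _ = (m + 2) * d * (b * l) := by rw [k2]
          _ = d * l * (b * (m + 2)) := by ring
          _ = _ := by rw [k1]; ring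
      rw [mul_add, s1, s2]
      ring
    rw [k6] at k5
    refine k5.trans (mul_le_mul_of_nonneg_left ?_ ha0.le)
    have k7 : ((m : ℤ) + 2) * (l * (m + 2 + d) + q) -
        ((l + 1) * (m + 1) * (m + 2) + d * ((l + 1) * l)) = q * l * d := by
      have : (m : ℤ) = q + l - 1 := by linarith
      rw [this]
      ring
    have k8 : (0 : ℤ) ≤ q * l * d := by positivity
    linarith
  have k9 := le_of_mul_le_mul_left k4 ha0
  have k10 := le_of_mul_le_mul_left k9 (show (0 : ℤ) < (m : ℤ) + 2 by positivity)
  exact_mod_cast k10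

theorem mat : S_Mat := by
  classical
  intro n q t E hq hqn hE ht
  obtain ⟨ν, hν⟩ : ∃ ν, ν = Nat.findGreatest (Mt E) n := ⟨_, rfl⟩
  have hMν : Mt E ν := by
    rw [hν]
    exact Nat.findGreatest_spec (Nat.zero_le n) (mt_zero E)
  have hmax : ∀ p, Mt E p → p ≤ ν := by
    intro p hp
    have hp' := hp
    obtain ⟨u, v, hi, -⟩ := hp'
    have := mt_le hi
    rw [hν]
    exact Nat.le_findGreatest (by omega) hp
  obtain ⟨u, v, hi, he⟩ := hMν
  have hle := mt_le hi
  have hu : Function.Injective u := hi.comp Sum.inl_injective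
  have hv : Function.Injective v := hi.comp Sum.inr_injective
  have huv : ∀ i j, u i ≠ v j := by
    intro i j h
    have := @hi (Sum.inl i) (Sum.inr j) h
    simp at this
  have hmeet : ∀ x ∈ E, x.1 ∈ cover u v ∨ x.2 ∈ cover u v := by
    intro x hx
    by_contra hcon
    push Not at hcon
    have := hmax _ (ext_match hi he hx (hE x hx) hcon.1 hcon.2)
    omega
  rcases le_or_gt ν q with hνq | hνq
  · have h1 := ht ν hνq u v hi he
    have h2 : avoid E (cover u v) = ∅ := by
      unfold avoid
      rw [filter_eq_empty_iff]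
      rintro x hx ⟨h3, h4⟩
      rcases hmeet x hx with h | h
      · exact h3 h
      · exact h4 h
    rw [h2, card_empty, Nat.le_zero] at h1
    subst h1
    exact ⟨fun _ => by simp, fun _ => Or.inl (by simp)⟩
  · have hsum := sum_sub hi he (ht q le_rfl)
    have hA : ν.choose q * t ≤ E.card * (ν - 1).choose q := by
      refine hsum.trans ?_
      rw [← smul_eq_mul]
      refine sum_le_card_nsmul _ _ _ (fun x hx => ?_)
      rcases hmeet x hx with h | h
      · obtain ⟨i, hi'⟩ := mem_cover.1 h
        exact cnt_one (i := i) (Or.inl hi')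
      · obtain ⟨i, hi'⟩ := mem_cover.1 h
        exact cnt_one (i := i) (Or.inr hi')
    constructor
    · rintro ⟨m, rfl⟩
      have h1 := arith_a (m := m) hνq (by omega) hA
      have e1 : 2 * m + 1 - 1 = 2 * m := by omega
      have e2 : 2 * m + 1 - 1 - 2 * q = 2 * (m - q) := by omega
      rw [e2, e1]
      nlinarith
    · intro hn
      obtain ⟨m, hm⟩ := hn
      rcases Nat.lt_or_ge (2 * ν) n with h2 | h2
      · left
        have h1 := arith_a (m := m - 1) hνq (by omega) hA
        have e1 : n - 2 = 2 * (m - 1) := by omega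
        have e2 : n - 2 - 2 * q = 2 * (m - 1 - q) := by omega
        rw [e2, e1]
        nlinarith
      · right
        have hmν : m = ν := by omega
        obtain ⟨l, rfl⟩ : ∃ l, ν = l + 2 := ⟨ν - 2, by omega⟩
        -- all vertices are covered
        have hcov : ∀ a : Fin n, a ∈ cover u v := by
          have h3 : Function.Surjective (Sum.elim u v) := by
            have hb : Function.Bijective (Sum.elim u v) := by
              rw [Fintype.bijective_iff_injective_and_card]
              refine ⟨hi, ?_⟩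
              simp only [Fintype.card_sum, Fintype.card_fin]
              omega
            exact hb.2
          intro a
          rw [mem_cover]
          obtain ⟨b, hb⟩ := h3 a
          rcases b with b | b
          · exact ⟨b, Or.inl hb.symm⟩
          · exact ⟨b, Or.inr hb.symm⟩
        obtain ⟨M, hM⟩ : ∃ M : Finset (Fin n × Fin n), M = univ.image (fun i => (u i, v i)) :=
          ⟨_, rfl⟩
        have hMcard : M.card = l + 2 := by
          rw [hM, card_image_of_injective, card_univ, Fintype.card_fin]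
          intro i j h
          exact hu (Prod.ext_iff.1 h).1
        have hME : M ⊆ E := by
          intro x hx
          rw [hM, mem_image] at hx
          obtain ⟨i, -, rfl⟩ := hx
          exact he i
        have hB : (l + 2).choose q * t ≤
            (l + 2) * (l + 1).choose q + (E.card - (l + 2)) * l.choose q := by
          refine hsum.trans ?_
          rw [← sum_sdiff hME, add_comm]
          refine Nat.add_le_add ?_ ?_
          · have : ∑ x ∈ M, ((powersetCard q (univ : Finset (Fin (l + 2)))).filter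
                (fun S => x.1 ∉ cv u v S ∧ x.2 ∉ cv u v S)).card ≤
                M.card • (l + 2 - 1).choose q := by
              refine sum_le_card_nsmul _ _ _ (fun x hx => ?_)
              rcases hmeet x (hME hx) with h | h
              · obtain ⟨i, hi'⟩ := mem_cover.1 h
                exact cnt_one (i := i) (Or.inl hi')
              · obtain ⟨i, hi'⟩ := mem_cover.1 h
                exact cnt_one (i := i) (Or.inr hi')
            rw [hMcard, smul_eq_mul] at this
            exact this
          · have : ∑ x ∈ E \ M, ((powersetCard q (univ : Finset (Fin (l + 2)))).filter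
                (fun S => x.1 ∉ cv u v S ∧ x.2 ∉ cv u v S)).card ≤
                (E \ M).card • (l + 2 - 2).choose q := by
              refine sum_le_card_nsmul _ _ _ (fun x hx => ?_)
              rw [mem_sdiff] at hx
              obtain ⟨hx1, hx2⟩ := hx
              obtain ⟨i, hi'⟩ := mem_cover.1 (hcov x.1)
              obtain ⟨j, hj'⟩ := mem_cover.1 (hcov x.2)
              refine cnt_two (i := i) (j := j) ?_ hi' hj'
              rintro rfl
              have hlt := hE x hx1
              have hlt2 := hE _ (he i)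
              simp only at hlt2
              rcases hi' with h3 | h3
              · rcases hj' with h4 | h4
                · rw [h3, h4] at hlt
                  exact lt_irrefl _ hlt
                · apply hx2
                  rw [hM, mem_image]
                  exact ⟨i, mem_univ _, Prod.ext h3.symm h4.symm⟩
              · rcases hj' with h4 | h4
                · rw [h3, h4] at hlt
                  exact lt_asymm hlt hlt2
                · rw [h3, h4] at hlt
                  exact lt_irrefl _ hlt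
            rw [card_sdiff_of_subset hME, hMcard, smul_eq_mul] at this
            exact this
        have hcardE : l + 2 ≤ E.card := by
          rw [← hMcard]
          exact card_le_card hME
        have h1 := arith_b hνq hcardE hB
        have e1 : n - 2 = 2 * (l + 1) := by omega
        have e2 : n - 2 - 2 * q = 2 * (l + 1 - q) := by omega
        refine ⟨?_, ?_⟩
        · rw [e2, e1]
          nlinarith
        · have e3 : n / 2 = l + 2 := by omega
          rw [e3]
          exact ⟨u, v, hi, he⟩

end Pool.Agent.Q177.PX
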